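import Pool.Agent.H41.CZ.Defs

/-!
# MP_308708_lc (transitive models): the families of classes are definable
-/

set_option linter.unusedVariables false

open Ordinal Order Set
open scoped ZFSet

namespace CZ

open SF UZ

namespace H65FAM

variable {M : V → Prop} {X R : V} {d : V → V → ℝ} {F G E : (ℕ → V) → V}

theorem pwN_memZ (hN : ZF M) {a : V} (ha : M a) : M (pwN M a) := by
  have h0 := hN.toZFm
  obtain ⟨y, hy, h⟩ := hN.pow a ha
  have h1 : M (y.sep fun x => x ⊆ a) := by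
    have h2 : DN M (fun u => u 0 ⊆ u 1) := DN.subset h0 (TN.var h0 0) (TN.var h0 1)
    exact h2.sepN h0 hy (u := fun _ => a) fun _ => ha
  have e : pwN M a = y.sep fun x => x ⊆ a := by
    ext x
    rw [mem_pwN, ZFSet.mem_sep]
    constructor
    · rintro ⟨h2, h3⟩
      exact ⟨h x h3 h2, h2⟩
    · rintro ⟨h2, h3⟩
      exact ⟨h3, h0.trans _ hy x h2⟩
  rw [e]
  exact h1

theorem tnPw (hN : ZF M) (hF : TN M F) : TN M (fun u => pwN M (F u)) := by
  have h := hN.toZFm
  refine TN.at1 (P := fun x => pwN M x) h ?_ hF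
  refine TN.of_mem h (fun u hu => pwN_memZ hN (hu 0)) ?_
  refine (DN.subset h (TN.var h 0) (TN.var h 1)).congr fun u hu => ?_
  show _ ↔ u 0 ∈ pwN M (u 1)
  rw [mem_pwN]
  exact ⟨fun h => ⟨h, hu 0⟩, fun h => h.1⟩

theorem dnIsFunc (hN : ZFm M) (hF : TN M F) (hG : TN M G) (hE : TN M E) :
    DN M (fun u => ZFSet.IsFunc (F u) (G u) (E u)) :=
  DN.of3 hN (P := fun _ x y z => ZFSet.IsFunc x y z)
    (Dfb.isFunc (Tm.var 0) (Tm.var 1) (Tm.var 2)) hF hG hE

theorem tnCo (hN : ZFm M) (hF : TN M F) (hG : TN M G) : TN M (fun u => co (F u) (G u)) :=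
  TN.app hN (TN.app hN hF (TN.fst hN hG)) (TN.snd hN hG)

theorem dnCn (hN : ZFm M) (hR : M R) (hF : TN M F) (hG : TN M G) :
    DN M (fun u => Cn R (F u) (G u)) :=
  DN.mem hN (TN.pair hN (TN.fst hN hG) (TN.pair hN (tnCo hN hF (TN.fst hN (TN.snd hN hG)))
    (TN.pair hN (tnCo hN hF (TN.fst hN (TN.snd hN (TN.snd hN hG))))
      (TN.snd hN (TN.snd hN (TN.snd hN hG)))))) (TN.cst hR)

theorem dnPP (hN : ZFm M) (hR : M R) {a l A f : (ℕ → V) → V} (ha : TN M a) (hl : TN M l)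
    (hA : TN M A) (hf : TN M f) : DN M (fun u => PP M R (a u) (l u) (A u) (f u)) := by
  have h0 : DN M (fun u => app (u 0) (nS 0) = f (fun i => u (i + 1))) :=
    DN.eq hN (TN.app hN (TN.var hN 0) (TN.nS hN 0)) (hf.rn (fun i => i + 1))
  have h1 : DN M (fun u => ∀ j ∈ l (fun i => u (i + 1)), app (a fun i => u (i + 1)) j = ∅ ∨
      app (u 0) (ZFSet.pair (nS 1) j) ∈ app (a fun i => u (i + 1)) j) :=
    DN.ball hN (hl.rn (fun i => i + 1))
      (S := fun u => app (a fun i => u (i + 2)) (u 0) = ∅ ∨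
        app (u 1) (ZFSet.pair (nS 1) (u 0)) ∈ app (a fun i => u (i + 2)) (u 0))
      ((DN.eq hN (TN.app hN (ha.rn (fun i => i + 2)) (TN.var hN 0)) (TN.empty hN)).or hN
        (DN.mem hN (TN.app hN (TN.var hN 1) (TN.pair hN (TN.nS hN 1) (TN.var hN 0)))
          (TN.app hN (ha.rn (fun i => i + 2)) (TN.var hN 0))))
  have h2 : DN M (fun u => ∀ c ∈ A (fun i => u (i + 1)), Cn R (u 0) c) :=
    DN.ball hN (hA.rn (fun i => i + 1)) (S := fun u => Cn R (u 1) (u 0))
      (dnCn hN hR (TN.var hN 1) (TN.var hN 0))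
  exact (h0.and hN (h1.and hN h2)).ex

theorem tnTu (hN : ZF M) (hX : M X) (hF : TN M F) : TN M (fun u => Tu M X (F u)) := by
  have h := hN.toZFm
  exact TN.sep h (S := fun u => ZFSet.IsFunc (F fun i => u (i + 1)) X (u 0))
    (dnIsFunc h (hF.rn (fun i => i + 1)) (TN.cst hX) (TN.var h 0))
    (tnPw hN (TN.prod h hF (TN.cst hX)))

theorem tnUc (hN : ZF M) (hX : M X) (hR : M R) (hF : TN M F) :
    TN M (fun u => Uc M X R (F u)) := by
  have h := hN.toZFm
  exact TN.sep h (S := fun u => PP M R ∅ ∅ (fst (snd (F fun i => u (i + 1)))) (u 0))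
    (dnPP h hR (TN.empty h) (TN.empty h) (TN.fst h (TN.snd h (hF.rn (fun i => i + 1))))
      (TN.var h 0)) (tnTu hN hX (TN.fst h hF))

theorem dnStp (hN : ZFm M) (hR : M R) (hF : TN M F) (hG : TN M G) (hE : TN M E) :
    DN M (fun u => Stp R (F u) (G u) (E u)) := by
  exact DN.ball hN (TN.fst hN hF)
    (S := fun u => ZFSet.pair (nS 0) (ZFSet.pair (app (G fun i => u (i + 1)) (u 0))
      (ZFSet.pair (app (E fun i => u (i + 1)) (u 0))
        (ZFSet.pair (nS 1) (snd (snd (F fun i => u (i + 1))))))) ∈ R)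
    (DN.mem hN (TN.pair hN (TN.nS hN 0) (TN.pair hN
      (TN.app hN (hG.rn (fun i => i + 1)) (TN.var hN 0))
      (TN.pair hN (TN.app hN (hE.rn (fun i => i + 1)) (TN.var hN 0))
        (TN.pair hN (TN.nS hN 1) (TN.snd hN (TN.snd hN (hF.rn (fun i => i + 1)))))))
      ) (TN.cst hR))

theorem dnChn (hN : ZF M) (hX : M X) (hR : M R) (hF : TN M F) (hG : TN M G) (hE : TN M E) :
    DN M (fun u => Chn M X R (F u) (G u) (E u)) := by
  have h := hN.toZFm
  -- variables: `m`, `z`, then the rest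
  have h1 : DN M (fun u => u 0 ∈ om) := DN.mem h (TN.var h 0) (TN.om h)
  have h2 : DN M (fun u => app (u 1) (nS 0) = G fun i => u (i + 2)) :=
    DN.eq h (TN.app h (TN.var h 1) (TN.nS h 0)) (hG.rn (fun i => i + 2))
  have h3 : DN M (fun u => app (u 1) (u 0) = E fun i => u (i + 2)) :=
    DN.eq h (TN.app h (TN.var h 1) (TN.var h 0)) (hE.rn (fun i => i + 2))
  have h4 : DN M (fun u => ∀ i ∈ u 0, app (u 1) (insert i i) ∈ Uc M X R (F fun j => u (j + 2)) ∧
      Stp R (F fun j => u (j + 2)) (app (u 1) i) (app (u 1) (insert i i))) := by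
    refine DN.ball h (TN.var h 0)
      (S := fun u => app (u 2) (insert (u 0) (u 0)) ∈ Uc M X R (F fun j => u (j + 3)) ∧
        Stp R (F fun j => u (j + 3)) (app (u 2) (u 0)) (app (u 2) (insert (u 0) (u 0)))) ?_
    have h5 := TN.app h (TN.var h 2) (TN.ins h (TN.var h 0) (TN.var h 0))
    exact (DN.mem h h5 (tnUc hN hX hR (hF.rn (fun i => i + 3)))).and h
      (dnStp h hR (hF.rn (fun i => i + 3)) (TN.app h (TN.var h 2) (TN.var h 0)) h5)
  have h6 : DN M (fun u => ∃ m, M m ∧ (m ∈ om ∧ app (u 0) (nS 0) = (G fun i => u (i + 1)) ∧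
      app (u 0) m = (E fun i => u (i + 1)) ∧ ∀ i ∈ m,
        app (u 0) (insert i i) ∈ Uc M X R (F fun j => u (j + 1)) ∧
          Stp R (F fun j => u (j + 1)) (app (u 0) i) (app (u 0) (insert i i)))) :=
    (h1.and h (h2.and h (h3.and h h4))).ex
  exact h6.ex

end H65FAM

open H65FAM in
theorem pf_FAM : T_FAM := by
  intro M X R d hN hX hR
  have h := hN.toZFm
  have hX' := hX.mem
  have hR' := hR.n
  have h1 : TN M (fun u => Uc M X R (u 0)) := tnUc hN hX' hR' (TN.var h 0)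
  have h2 : TN M (fun u => imS (Uc M X R (u 0)) fun t => (Uc M X R (u 0)).sep fun t' =>
      Chn M X R (u 0) t t') := by
    refine TN.image h h1 (G := fun u => (Uc M X R (u 1)).sep fun t' => Chn M X R (u 1) (u 0) t') ?_
    exact TN.sep h (S := fun u => Chn M X R (u 2) (u 1) (u 0))
      (dnChn hN hX' hR' (TN.var h 2) (TN.var h 1) (TN.var h 0)) (tnUc hN hX' hR' (TN.var h 1))
  have h3 : TN M (fun u => ({∅} : V).sep fun _ => Uc M X R (u 0) = ∅) :=
    TN.sep h (S := fun u => Uc M X R (u 1) = ∅)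
      (DN.eq h (tnUc hN hX' hR' (TN.var h 1)) (TN.empty h)) (TN.sing h (TN.empty h))
  exact TN.union h h2 h3

end CZ
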