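import Pool.Agent.H41.CZ.Defs

/-!
# MP_308708_lc (transitive models): the sets of classes are finite and nonempty
-/

set_option linter.unusedVariables false

open Ordinal Order Set
open scoped ZFSet

namespace CZ

open SF UZ

namespace H65FIN

variable {M : V → Prop} {X R : V} {d : V → V → ℝ}

theorem rk_lt (hR : Rk M X R d) {x y : V} (hx : x ∈ X) (hy : y ∈ X) (m n : ℕ) :
    ZFSet.pair (nS 0) (ZFSet.pair x (ZFSet.pair y (ZFSet.pair (nS m) (nS n)))) ∈ R ↔
      n * d x y < m := by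
  rw [hR.lt]
  constructor
  · rintro ⟨_, _, m', n', h1, h2⟩
    obtain ⟨h3, h4⟩ := ZFSet.pair_injective h1
    rw [nS_inj] at h3 h4
    subst h3
    subst h4
    exact h2
  · intro h
    exact ⟨hx, hy, m, n, rfl, h⟩

theorem mem_nS {x : V} {k : ℕ} : x ∈ nS k ↔ ∃ i < k, x = nS i := by
  induction k with
  | zero =>
    rw [nS_zero]
    constructor
    · intro h
      exact absurd h (ZFSet.notMem_empty _)
    · rintro ⟨i, hi, _⟩
      exact absurd hi (Nat.not_lt_zero i)
  | succ k ih =>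
    rw [nS_succ, ZFSet.mem_insert_iff, ih]
    constructor
    · rintro (rfl | ⟨i, hi, rfl⟩)
      · exact ⟨k, Nat.lt_succ_self k, rfl⟩
      · exact ⟨i, Nat.lt_succ_of_lt hi, rfl⟩
    · rintro ⟨i, hi, rfl⟩
      rcases Nat.lt_succ_iff_lt_or_eq.1 hi with h | h
      · exact Or.inr ⟨i, h, rfl⟩
      · subst h
        exact Or.inl rfl

/-- the code `(k, (A, n + 1))` -/
noncomputable def cd (k n : ℕ) (A : V) : V :=
  ZFSet.pair (nS k) (ZFSet.pair A (nS (n + 1)))

theorem m_cd (hN : ZFm M) (k n : ℕ) {A : V} (hA : M A) : M (cd k n A) := by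
  have h1 : ∀ j : ℕ, M (nS j) := fun j =>
    TN.mem hN (TN.nS hN j) (u := fun _ => om) (fun _ => hN.inf)
  exact TN.mem hN (TN.pair hN (TN.cst (h1 k)) (TN.pair hN (TN.cst hA) (TN.cst (h1 (n + 1)))))
    (u := fun _ => om) (fun _ => hN.inf)

theorem uc_func {k n : ℕ} {A t : V} (ht : t ∈ Uc M X R (cd k n A)) :
    ZFSet.IsFunc (nS k) X t := by
  unfold Uc Tu cd at ht
  rw [ZFSet.mem_sep, ZFSet.mem_sep, fst_pair] at ht
  exact ht.1.2

theorem uc_app {k n : ℕ} {A t : V} (ht : t ∈ Uc M X R (cd k n A)) {i : ℕ} (hi : i < k) :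
    app t (nS i) ∈ X :=
  app_mem (uc_func ht) (mem_nS.2 ⟨i, hi, rfl⟩)

theorem stp_iff (hR : Rk M X R d) {k n : ℕ} {A t t' : V} (ht : ∀ i < k, app t (nS i) ∈ X)
    (ht' : ∀ i < k, app t' (nS i) ∈ X) :
    Stp R (cd k n A) t t' ↔ ∀ i < k, ((n : ℝ) + 1) * d (app t (nS i)) (app t' (nS i)) < 1 := by
  unfold Stp cd
  rw [fst_pair, snd_pair, snd_pair]
  constructor
  · intro h i hi
    have h1 := h (nS i) (mem_nS.2 ⟨i, hi, rfl⟩)
    rw [rk_lt hR (ht i hi) (ht' i hi)] at h1
    push_cast at h1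
    exact h1
  · intro h x hx
    obtain ⟨i, hi, rfl⟩ := mem_nS.1 hx
    rw [rk_lt hR (ht i hi) (ht' i hi)]
    push_cast
    exact h i hi

/-- one step -/
def Rel (M : V → Prop) (X R c s s' : V) : Prop :=
  s ∈ Uc M X R c ∧ s' ∈ Uc M X R c ∧ Stp R c s s'

theorem rel_symm (hd : MetricIn M X d) (hR : Rk M X R d) {k n : ℕ} {A s s' : V}
    (h : Rel M X R (cd k n A) s s') : Rel M X R (cd k n A) s' s := by
  obtain ⟨h1, h2, h3⟩ := h
  refine ⟨h2, h1, ?_⟩
  have e1 : ∀ i < k, app s (nS i) ∈ X := fun i hi => uc_app h1 hi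
  have e2 : ∀ i < k, app s' (nS i) ∈ X := fun i hi => uc_app h2 hi
  rw [stp_iff hR e2 e1]
  rw [stp_iff hR e1 e2] at h3
  intro i hi
  rw [hd.symm _ (e2 i hi) _ (e1 i hi)]
  exact h3 i hi

theorem rtg_symm (hd : MetricIn M X d) (hR : Rk M X R d) {k n : ℕ} {A s s' : V}
    (h : Relation.ReflTransGen (Rel M X R (cd k n A)) s s') :
    Relation.ReflTransGen (Rel M X R (cd k n A)) s' s := by
  induction h with
  | refl => exact Relation.ReflTransGen.refl
  | tail _ h2 ih => exact Relation.ReflTransGen.head (rel_symm hd hR h2) ih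

theorem mem_Fm {c w : V} : w ∈ Fm M X R c ↔
    (∃ t ∈ Uc M X R c, ((Uc M X R c).sep fun t' => Chn M X R c t t') = w) ∨
      (w = ∅ ∧ Uc M X R c = ∅) := by
  unfold Fm
  rw [ZFSet.mem_union, mem_imS, ZFSet.mem_sep, ZFSet.mem_singleton]

theorem fm_ne (c : V) : (Fm M X R c).Nonempty := by
  rcases ZFSet.eq_empty_or_nonempty (Uc M X R c) with h | ⟨t, ht⟩
  · exact ⟨∅, mem_Fm.2 (Or.inr ⟨rfl, h⟩)⟩
  · exact ⟨_, mem_Fm.2 (Or.inl ⟨t, ht, rfl⟩)⟩

theorem fm_fin (hC : T_CHN) (hN : ZF M) (hd : MetricIn M X d) (hR : Rk M X R d)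
    {Y : Type 1} [MetricSpace Y] [CompactSpace Y] {ι : V → Y} (hι : Rz X d ι)
    (k n : ℕ) {A : V} (hA : M A) : ((Fm M X R (cd k n A) : V) : Set V).Finite := by
  classical
  have hc := m_cd hN.toZFm k n hA
  have hch := hC M X R d hN hd hR (cd k n A) hc
  have hn : (0 : ℝ) < n + 1 := by positivity
  obtain ⟨S, -, hS, hS2⟩ := (isCompact_univ (X := Y)).finite_cover_balls
    (e := 1 / (2 * ((n : ℝ) + 1))) (by positivity)
  have h1 : ∀ y : Y, ∃ s : S, dist y s.1 < 1 / (2 * ((n : ℝ) + 1)) := by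
    intro y
    have h2 := hS2 (mem_univ y)
    simp only [mem_iUnion, Metric.mem_ball] at h2
    obtain ⟨s, hs, h3⟩ := h2
    exact ⟨⟨s, hs⟩, h3⟩
  choose p hp using h1
  have _i : Finite S := hS
  -- the class
  have hcls : ∀ s ∈ Uc M X R (cd k n A), ∀ s' ∈ Uc M X R (cd k n A),
      (fun i : Fin k => p (ι (app s (nS i)))) = (fun i : Fin k => p (ι (app s' (nS i)))) →
      ((Uc M X R (cd k n A)).sep fun t' => Chn M X R (cd k n A) s t') =
        ((Uc M X R (cd k n A)).sep fun t' => Chn M X R (cd k n A) s' t') := by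
    intro s hs s' hs' h
    have hst : Rel M X R (cd k n A) s s' := by
      refine ⟨hs, hs', ?_⟩
      rw [stp_iff hR (fun i hi => uc_app hs hi) (fun i hi => uc_app hs' hi)]
      intro i hi
      have h2 : p (ι (app s (nS i))) = p (ι (app s' (nS i))) := congrFun h ⟨i, hi⟩
      have h3 := hp (ι (app s (nS i)))
      have h4 := hp (ι (app s' (nS i)))
      rw [← h2] at h4
      have h5 := dist_triangle_right (ι (app s (nS i))) (ι (app s' (nS i)))
        (p (ι (app s (nS i)))).1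
      rw [hι.dist _ (uc_app hs hi) _ (uc_app hs' hi)] at h5
      have h6 : d (app s (nS i)) (app s' (nS i)) < 1 / ((n : ℝ) + 1) := by
        have e : 1 / ((n : ℝ) + 1) = 1 / (2 * ((n : ℝ) + 1)) + 1 / (2 * ((n : ℝ) + 1)) := by
          field_simp
          norm_num
        rw [e]
        linarith
      rw [lt_div_iff₀ hn] at h6
      linarith [mul_comm (d (app s (nS i)) (app s' (nS i))) ((n : ℝ) + 1)]
    have hst' := rel_symm hd hR hst
    ext t
    rw [ZFSet.mem_sep, ZFSet.mem_sep, hch s hs, hch s' hs']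
    refine and_congr_right fun _ => ?_
    constructor
    · intro h3
      exact Relation.ReflTransGen.head hst' h3
    · intro h3
      exact Relation.ReflTransGen.head hst h3
  let f : V → (Fin k → S) := fun w => fun i =>
    p (ι (app (if h : ∃ t ∈ Uc M X R (cd k n A),
      ((Uc M X R (cd k n A)).sep fun t' => Chn M X R (cd k n A) t t') = w then h.choose else ∅)
        (nS i)))
  refine Set.Finite.of_injOn (f := f) (t := Set.univ) (fun _ _ => mem_univ _) ?_ Set.finite_univ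
  intro w hw w' hw' hf
  have hw1 : w ∈ Fm M X R (cd k n A) := hw
  have hw2 : w' ∈ Fm M X R (cd k n A) := hw'
  rcases mem_Fm.1 hw1 with h | ⟨h, h'⟩
  · rcases mem_Fm.1 hw2 with g | ⟨g, g'⟩
    · have h3 := h.choose_spec
      have g3 := g.choose_spec
      rw [← h3.2, ← g3.2]
      apply hcls _ h3.1 _ g3.1
      simp only [f, dif_pos h, dif_pos g] at hf
      exact hf
    · obtain ⟨t, ht, _⟩ := h
      rw [g'] at ht
      exact absurd ht (ZFSet.notMem_empty _)
  · rcases mem_Fm.1 hw2 with g | ⟨g, g'⟩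
    · obtain ⟨t, ht, _⟩ := g
      rw [h'] at ht
      exact absurd ht (ZFSet.notMem_empty _)
    · rw [h, g]

end H65FIN

open H65FIN in
theorem pf_FIN : T_CHN → T_FIN := by
  intro hC M X R d hN hd hR Y _ _ ι hι
  exact ⟨fun c _ => fm_ne c, fun k n A hA => fm_fin hC hN hd hR hι k n hA⟩

end CZ
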