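import Pool.Agent.H65.CZ.FIN
import Pool.Agent.H58.SE.AA

/-!
# MP_308708_lc (transitive models): the choice of classes rigidifies the profinite part
-/

set_option linter.unusedVariables false

open Ordinal Order Set Filter Topology
open scoped ZFSet

namespace CZ

open SF UZ

namespace H65STB

/-! ### the gap lemma -/

theorem inv_dist {Y : Type 1} [MetricSpace Y] (g h : Y ≃ᵢ Y) (y z : Y) :
    dist ((g⁻¹ * h) y) z = dist (h y) (g z) := by
  rw [← g.dist_eq, IsometryEquiv.mul_apply, IsometryEquiv.apply_inv_self]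

theorem lim {Y : Type 1} [MetricSpace Y] [CompactSpace Y] (f : ℕ → Y) (U : Ultrafilter ℕ) :
    ∃ y, Tendsto f (U : Filter ℕ) (𝓝 y) := by
  obtain ⟨y, -, hy⟩ := (isCompact_univ (X := Y)).ultrafilter_le_nhds (U.map f) (by simp)
  exact ⟨y, hy⟩

theorem gap {Y : Type 1} [MetricSpace Y] [CompactSpace Y] (N : Subgroup (Y ≃ᵢ Y))
    (E : Finset Y) (hE : ∀ g : Y ≃ᵢ Y, (∀ e ∈ E, g e = e) → g ∈ N)
    {ε : ℝ} (hε : 0 < ε) (hN : ∀ g : Y ≃ᵢ Y, (∀ y, dist (g y) y < ε) → g ∈ N) :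
    ∃ δ > 0, ∀ g : Y ≃ᵢ Y, (∀ e ∈ E, dist (g e) e < δ) → g ∈ N := by
  by_contra hcon
  push Not at hcon
  have h0 : ∀ m : ℕ, ∃ g : Y ≃ᵢ Y, (∀ e ∈ E, dist (g e) e < 1 / ((m : ℝ) + 1)) ∧ g ∉ N :=
    fun m => hcon _ (by positivity)
  choose g hg hgN using h0
  let U : Ultrafilter ℕ := hyperfilter ℕ
  have hU : (U : Filter ℕ) ≤ atTop := by
    rw [← Nat.cofinite_eq_atTop]
    exact hyperfilter_le_cofinite
  choose G hG using fun y : Y => lim (fun m => g m y) U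
  choose G' hG' using fun y : Y => lim (fun m => (g m)⁻¹ y) U
  have e1 : ∀ y z, dist (G y) (G z) = dist y z := by
    intro y z
    have h1 : Tendsto (fun m => dist (g m y) (g m z)) (U : Filter ℕ) (𝓝 (dist (G y) (G z))) :=
      (hG y).dist (hG z)
    have h2 : (fun m => dist (g m y) (g m z)) = fun _ => dist y z := by
      funext m
      exact (g m).dist_eq y z
    rw [h2] at h1
    exact tendsto_nhds_unique h1 tendsto_const_nhds
  have e2 : ∀ y, G (G' y) = y := by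
    intro y
    have h1 : Tendsto (fun m => dist ((g m)⁻¹ y) (G' y)) (U : Filter ℕ) (𝓝 0) := by
      have := (hG' y).dist (tendsto_const_nhds (x := G' y))
      rwa [dist_self] at this
    have h2 : Tendsto (fun m => dist (g m (G' y)) y) (U : Filter ℕ) (𝓝 (dist (G (G' y)) y)) :=
      (hG (G' y)).dist tendsto_const_nhds
    have h3 : (fun m => dist (g m (G' y)) y) = fun m => dist ((g m)⁻¹ y) (G' y) := by
      funext m
      rw [← (g m).dist_eq ((g m)⁻¹ y), IsometryEquiv.apply_inv_self, dist_comm]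
    rw [h3] at h2
    have h4 := tendsto_nhds_unique h1 h2
    exact dist_eq_zero.1 h4.symm
  let T : Y ≃ᵢ Y := IsometryEquiv.mk' G G' e2 (Isometry.of_dist_eq e1)
  have hT : ∀ y, T y = G y := fun _ => rfl
  have e3 : T ∈ N := by
    refine hE T fun e he => ?_
    rw [hT]
    have h1 : Tendsto (fun m => dist (g m e) e) (U : Filter ℕ) (𝓝 (dist (G e) e)) :=
      (hG e).dist tendsto_const_nhds
    have h2 : Tendsto (fun m => dist (g m e) e) (U : Filter ℕ) (𝓝 0) :=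
      (squeeze_zero (fun _ => dist_nonneg) (fun m => (hg m e he).le)
        tendsto_one_div_add_atTop_nhds_zero_nat).mono_left hU
    exact dist_eq_zero.1 (tendsto_nhds_unique h1 h2)
  -- uniform convergence
  obtain ⟨S, -, hS, hS2⟩ := (isCompact_univ (X := Y)).finite_cover_balls (e := ε / 3)
    (by positivity)
  have e4 : ∀ᶠ m in (U : Filter ℕ), ∀ s ∈ S, dist (g m s) (G s) < ε / 3 := by
    rw [eventually_all_finite hS]
    intro s _
    have h1 : Tendsto (fun m => dist (g m s) (G s)) (U : Filter ℕ) (𝓝 0) := by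
      have := (hG s).dist (tendsto_const_nhds (x := G s))
      rwa [dist_self] at this
    exact h1.eventually_lt_const (by positivity)
  obtain ⟨m, hm⟩ := e4.exists
  have e5 : T⁻¹ * g m ∈ N := by
    refine hN _ fun y => ?_
    rw [inv_dist, hT]
    have h2 := hS2 (mem_univ y)
    simp only [mem_iUnion, Metric.mem_ball] at h2
    obtain ⟨s, hs, h3⟩ := h2
    have h4 := dist_triangle4 (g m y) (g m s) (G s) (G y)
    rw [(g m).dist_eq, e1, dist_comm s y] at h4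
    linarith [hm s hs]
  apply hgN m
  have h6 := N.mul_mem e3 e5
  rwa [mul_inv_cancel_left] at h6

/-! ### tuples -/

variable {M : V → Prop} {X R : V} {d : V → V → ℝ}

theorem app_of_not {t x : V} (h : ∀ y, ZFSet.pair x y ∉ t) : app t x = ∅ := by
  unfold app
  have e : ((⋃₀ (⋃₀ t : ZFSet) : ZFSet).sep fun y => ZFSet.pair x y ∈ t) = ∅ := by
    ext z
    rw [ZFSet.mem_sep]
    constructor
    · rintro ⟨_, h2⟩
      exact absurd h2 (h z)
    · intro h2
      exact absurd h2 (ZFSet.notMem_empty _)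
  rw [e, ZFSet.sUnion_empty]

theorem app_empty (x : V) : app ∅ x = ∅ := app_of_not fun _ => ZFSet.notMem_empty _

theorem mem_tp {k : ℕ} {u : ℕ → V} {z : V} :
    z ∈ tp k u ↔ ∃ i < k, z = ZFSet.pair (nS i) (u i) := by
  unfold tp
  rw [ZFSet.mem_range]
  constructor
  · rintro ⟨i, rfl⟩
    exact ⟨i, i.2, rfl⟩
  · rintro ⟨i, hi, rfl⟩
    exact ⟨⟨i, hi⟩, rfl⟩

theorem pair_mem_tp {k : ℕ} {u : ℕ → V} {i : ℕ} {y : V} :
    ZFSet.pair (nS i) y ∈ tp k u ↔ i < k ∧ y = u i := by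
  rw [mem_tp]
  constructor
  · rintro ⟨j, hj, h⟩
    obtain ⟨h1, h2⟩ := ZFSet.pair_injective h
    rw [nS_inj] at h1
    subst h1
    exact ⟨hj, h2⟩
  · rintro ⟨hi, rfl⟩
    exact ⟨i, hi, rfl⟩

theorem svl_tp (k : ℕ) (u : ℕ → V) : Svl (tp k u) := by
  intro x y z hy hz
  obtain ⟨i, hi, h⟩ := mem_tp.1 hy
  obtain ⟨h1, h2⟩ := ZFSet.pair_injective h
  subst h1
  rw [(pair_mem_tp.1 hy).2, (pair_mem_tp.1 hz).2]

theorem app_tp {k : ℕ} (u : ℕ → V) {i : ℕ} (hi : i < k) : app (tp k u) (nS i) = u i :=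
  app_eq (svl_tp k u) (pair_mem_tp.2 ⟨hi, rfl⟩)

theorem func_tp {k : ℕ} {u : ℕ → V} (hu : ∀ i, u i ∈ X) : ZFSet.IsFunc (nS k) X (tp k u) := by
  refine ⟨?_, ?_⟩
  · intro z hz
    obtain ⟨i, hi, rfl⟩ := mem_tp.1 hz
    rw [ZFSet.pair_mem_prod]
    exact ⟨H65FIN.mem_nS.2 ⟨i, hi, rfl⟩, hu i⟩
  · intro z hz
    obtain ⟨i, hi, rfl⟩ := H65FIN.mem_nS.1 hz
    exact ⟨u i, pair_mem_tp.2 ⟨hi, rfl⟩, fun y hy => (pair_mem_tp.1 hy).2⟩

theorem tp_succ (k : ℕ) (u : ℕ → V) : tp (k + 1) u = insert (ZFSet.pair (nS k) (u k)) (tp k u) := by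
  ext z
  rw [ZFSet.mem_insert_iff, mem_tp, mem_tp]
  constructor
  · rintro ⟨i, hi, rfl⟩
    rcases Nat.lt_succ_iff_lt_or_eq.1 hi with h | h
    · exact Or.inr ⟨i, h, rfl⟩
    · subst h
      exact Or.inl rfl
  · rintro (rfl | ⟨i, hi, rfl⟩)
    · exact ⟨k, Nat.lt_succ_self k, rfl⟩
    · exact ⟨i, Nat.lt_succ_of_lt hi, rfl⟩

theorem m_tp (hM : ZFm M) {u : ℕ → V} (hu : ∀ i, M (u i)) (k : ℕ) : M (tp k u) := by
  induction k with
  | zero =>
    have e : tp 0 u = ∅ := by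
      ext z
      rw [mem_tp]
      constructor
      · rintro ⟨i, hi, _⟩
        exact absurd hi (Nat.not_lt_zero i)
      · intro h
        exact absurd h (ZFSet.notMem_empty _)
    rw [e]
    exact TN.mem hM (TN.empty hM) hu
  | succ k ih =>
    rw [tp_succ]
    have h1 := TN.mem hM (TN.pair hM (TN.nS hM k) (TN.cst (hu k))) hu
    have h2 := TN.mem hM (TN.ins hM (TN.cst h1) (TN.cst ih)) hu
    exact h2

theorem len_eq {k l : ℕ} {u : ℕ → V} (h : ZFSet.IsFunc (nS k) X (tp l u)) : l = k := by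
  have h1 : ∀ i, i < l ↔ i < k := by
    intro i
    constructor
    · intro hi
      have h2 := (pair_mem_iff_app h).1 (pair_mem_tp.2 ⟨hi, rfl⟩)
      obtain ⟨j, hj, e⟩ := H65FIN.mem_nS.1 h2.1
      rw [nS_inj] at e
      omega
    · intro hi
      have h2 := pair_app_mem h (H65FIN.mem_nS.2 ⟨i, hi, rfl⟩)
      exact (pair_mem_tp.1 h2).1
  have h2 := h1 l
  have h3 := h1 k
  omega

theorem tp_uc {k n : ℕ} {A : V} (hZ : ZFm M) (hX : M X) {u : ℕ → V} (hu : ∀ i, u i ∈ X)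
    (h : PP M R ∅ ∅ A (tp k u)) : tp k u ∈ Uc M X R (H65FIN.cd k n A) := by
  unfold Uc Tu H65FIN.cd
  rw [ZFSet.mem_sep, ZFSet.mem_sep, ZFSet.mem_sep, fst_pair, snd_pair, fst_pair,
    ZFSet.mem_powerset]
  exact ⟨⟨⟨(func_tp hu).1, m_tp hZ (fun i => hZ.trans _ hX _ (hu i)) k⟩, func_tp hu⟩, h⟩

theorem uc_pp {k n : ℕ} {A t : V} (ht : t ∈ Uc M X R (H65FIN.cd k n A)) :
    PP M R ∅ ∅ A t := by
  unfold Uc H65FIN.cd at ht
  rw [ZFSet.mem_sep, snd_pair, fst_pair, fst_pair] at ht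
  exact ht.2

theorem pp_iff (l A f : V) : PP M R ∅ l A f ↔ PP M R ∅ ∅ A f := by
  unfold PP
  refine exists_congr fun z => and_congr_right fun _ => and_congr_right fun _ => ?_
  refine and_congr_left fun _ => ?_
  constructor
  · intro _ j hj
    exact absurd hj (ZFSet.notMem_empty _)
  · intro _ j _
    exact Or.inl (app_empty j)

/-- a tuple of `X` equal to a given function -/
theorem exists_tp {k : ℕ} {t x0 : V} (ht : ZFSet.IsFunc (nS k) X t) (hx : x0 ∈ X) :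
    ∃ u : ℕ → V, (∀ i, u i ∈ X) ∧ t = tp k u := by
  classical
  refine ⟨fun i => if i < k then app t (nS i) else x0, fun i => ?_, ?_⟩
  · by_cases h : i < k
    · simp only [if_pos h]
      exact app_mem ht (H65FIN.mem_nS.2 ⟨i, h, rfl⟩)
    · simp only [if_neg h]
      exact hx
  · ext z
    rw [mem_tp]
    constructor
    · intro hz
      obtain ⟨a, ha, b, hb, e⟩ := ZFSet.mem_prod.1 (ht.1 hz)
      obtain ⟨i, hi, rfl⟩ := H65FIN.mem_nS.1 ha
      refine ⟨i, hi, ?_⟩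
      simp only [if_pos hi]
      rw [e] at hz ⊢
      rw [((pair_mem_iff_app ht).1 hz).2]
    · rintro ⟨i, hi, rfl⟩
      simp only [if_pos hi]
      exact pair_app_mem ht (H65FIN.mem_nS.2 ⟨i, hi, rfl⟩)

end H65STB

open H65STB in
theorem pf_STB : T_SEP → T_CHN → T_STB := by
  classical
  intro hSEP hCHN M X R d hZ hd hR Y _ _ ι hι a K F hB hS hcl N hNn ⟨E, hEX, hEN⟩ ⟨ε, hε, hεN⟩ g hg
  obtain ⟨δ', hδ', hgap⟩ := gap N E hEN hε hεN
  -- the enumeration of `E`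
  choose! xe hxe hxe2 using hEX
  have hx0 : F 0 0 ∈ X := hS.1 0 0
  let k : ℕ := E.card
  let x : ℕ → V := fun i => if h : i < k then xe (E.equivFin.symm ⟨i, h⟩).1 else F 0 0
  have hx : ∀ i, x i ∈ X := by
    intro i
    by_cases h : i < k
    · simp only [x, dif_pos h]
      exact hxe _ (E.equivFin.symm ⟨i, h⟩).2
    · simp only [x, dif_neg h]
      exact hx0
  have hxE : ∀ e ∈ E, ∃ i < k, ι (x i) = e := by
    intro e he
    refine ⟨(E.equivFin ⟨e, he⟩).1, (E.equivFin ⟨e, he⟩).2, ?_⟩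
    have h1 : (E.equivFin ⟨e, he⟩).1 < k := (E.equivFin ⟨e, he⟩).2
    simp only [x, dif_pos h1]
    have h2 : E.equivFin.symm ⟨(E.equivFin ⟨e, he⟩).1, h1⟩ = ⟨e, he⟩ :=
      E.equivFin.symm_apply_apply ⟨e, he⟩
    rw [h2]
    exact hxe2 e he
  let δ : ℝ := δ' / 3
  have hδ : 0 < δ := by positivity
  have hδ3 : δ' = 3 * δ := by
    show δ' = 3 * (δ' / 3)
    ring
  have hgap2 : ∀ h h' : Y ≃ᵢ Y, (∀ i < k, dist (h' (ι (x i))) (h (ι (x i))) < 3 * δ) →
      h⁻¹ * h' ∈ N := by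
    intro h h' hh
    refine hgap _ fun e he => ?_
    obtain ⟨i, hi, rfl⟩ := hxE e he
    rw [inv_dist, hδ3]
    exact hh i hi
  -- the condition
  obtain ⟨l, A, hA, ρ, hρ, hs1, hs2⟩ := hSEP M X R d hZ hd hR Y ι hι ∅ K F
    (fun j t ht => absurd (by rwa [app_empty] at ht) (ZFSet.notMem_empty t))
    ⟨hS.1, fun j hj => absurd (app_empty _) hj⟩ k (fun i => ι (x i)) δ hδ
  have hs2' : ∀ u : ℕ → V, (∀ i, u i ∈ X) → PP M R ∅ ∅ A (tp k u) →
      ∃ g : Y ≃ᵢ Y, ∀ i < k, dist (ι (u i)) (g (ι (x i))) < δ := by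
    intro u hu h
    obtain ⟨g, hg, _⟩ := hs2 u hu ((pp_iff _ _ _).2 h)
    exact ⟨g, hg⟩
  obtain ⟨n, hn⟩ := exists_nat_one_div_lt hδ
  obtain ⟨j, hj⟩ := hcl k n A hA
  have hj' : app a (nS j) ∈ Fm M X R (H65FIN.cd k n A) := hj
  have hMA : M A := by
    have h1 : M SE.hf := SE.H58.tm_hf.1 M hZ.toZFm (fun _ => om) (fun _ => hZ.toZFm.inf)
    exact hZ.toZFm.trans _ h1 A hA
  have hch := hCHN M X R d hZ hd hR (H65FIN.cd k n A) (H65FIN.m_cd hZ.toZFm k n hMA)
  have hUx : tp k x ∈ Uc M X R (H65FIN.cd k n A) :=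
    tp_uc hZ.toZFm hd.mem hx ((pp_iff _ _ _).1 (hs1 x hx fun i _ => by
      rw [dist_self]
      exact hρ))
  obtain ⟨t0, ht0, hcls⟩ : ∃ t ∈ Uc M X R (H65FIN.cd k n A),
      ((Uc M X R (H65FIN.cd k n A)).sep fun t' => Chn M X R (H65FIN.cd k n A) t t') =
        app a (nS j) := by
    rcases H65FIN.mem_Fm.1 hj' with h | ⟨_, h⟩
    · exact h
    · rw [h] at hUx
      exact absurd hUx (ZFSet.notMem_empty _)
  have hmem : ∀ t, t ∈ app a (nS j) ↔ t ∈ Uc M X R (H65FIN.cd k n A) ∧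
      Relation.ReflTransGen (H65FIN.Rel M X R (H65FIN.cd k n A)) t0 t := by
    intro t
    rw [← hcls, ZFSet.mem_sep, hch t0 ht0]
    rfl
  have hne : app a (nS j) ≠ ∅ := by
    intro h
    have h1 := (hmem t0).2 ⟨ht0, Relation.ReflTransGen.refl⟩
    rw [h] at h1
    exact ZFSet.notMem_empty _ h1
  have hF := hS.2 j hne
  have hK : K j = k := len_eq (H65FIN.uc_func ((hmem _).1 hF).1)
  obtain ⟨t, htX, ht, htg⟩ := hg j hne δ hδ
  rw [hK] at hF ht htg
  have hF' := (hmem _).1 hF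
  have ht' := (hmem _).1 ht
  have hpath := (H65FIN.rtg_symm hd hR hF'.2).trans ht'.2
  -- the isometries near the tuples
  have hnear : ∀ s ∈ Uc M X R (H65FIN.cd k n A), ∃ h : Y ≃ᵢ Y,
      ∀ i < k, dist (ι (app s (nS i))) (h (ι (x i))) < δ := by
    intro s hs
    obtain ⟨u, hu, rfl⟩ := exists_tp (H65FIN.uc_func hs) hx0
    obtain ⟨h, hh⟩ := hs2' u hu (uc_pp hs)
    refine ⟨h, fun i hi => ?_⟩
    rw [app_tp u hi]
    exact hh i hi
  have hchain : ∀ s s', Relation.ReflTransGen (H65FIN.Rel M X R (H65FIN.cd k n A)) s s' →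
      ∀ h h' : Y ≃ᵢ Y, (∀ i < k, dist (ι (app s (nS i))) (h (ι (x i))) < δ) →
      (∀ i < k, dist (ι (app s' (nS i))) (h' (ι (x i))) < δ) → h⁻¹ * h' ∈ N := by
    intro s s' hss
    induction hss with
    | refl =>
      intro h h' h1 h2
      refine hgap2 h h' fun i hi => ?_
      have h3 := dist_triangle_left (h' (ι (x i))) (h (ι (x i))) (ι (app s (nS i)))
      linarith [h1 i hi, h2 i hi]
    | @tail s1 s2 _ hst ih =>
      intro h h' h1 h2
      obtain ⟨h'', h3⟩ := hnear s1 hst.1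
      have h4 := ih h h'' h1 h3
      have h5 : h''⁻¹ * h' ∈ N := by
        refine hgap2 h'' h' fun i hi => ?_
        have h6 := (H65FIN.stp_iff hR (fun i hi => H65FIN.uc_app hst.1 hi)
          (fun i hi => H65FIN.uc_app hst.2.1 hi)).1 hst.2.2 i hi
        have h7 : d (app s1 (nS i)) (app s2 (nS i)) < δ := by
          have h8 : d (app s1 (nS i)) (app s2 (nS i)) < 1 / ((n : ℝ) + 1) := by
            rw [lt_div_iff₀ (by positivity)]
            linarith [mul_comm (d (app s1 (nS i)) (app s2 (nS i))) ((n : ℝ) + 1)]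
          linarith
        rw [← hι.dist _ (H65FIN.uc_app hst.1 hi) _ (H65FIN.uc_app hst.2.1 hi)] at h7
        have h9 := dist_triangle4 (h' (ι (x i))) (ι (app s2 (nS i))) (ι (app s1 (nS i)))
          (h'' (ι (x i)))
        rw [dist_comm (h' (ι (x i))) (ι (app s2 (nS i))),
          dist_comm (ι (app s2 (nS i))) (ι (app s1 (nS i)))] at h9
        linarith [h2 i hi, h3 i hi]
      have h6 := N.mul_mem h4 h5
      rwa [mul_assoc, mul_inv_cancel_left] at h6
  obtain ⟨h, hh⟩ := hnear _ hF'.1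
  obtain ⟨hm, hhm⟩ := hnear _ ht'.1
  have h1 := hchain _ _ hpath h hm hh hhm
  have h2 : hm⁻¹ * (g * h) ∈ N := by
    refine hgap2 hm (g * h) fun i hi => ?_
    have h3 := hh i hi
    have h4 := hhm i hi
    rw [app_tp _ hi] at h3 h4
    have h5 := htg i hi
    have h6 := dist_triangle4 (g (h (ι (x i)))) (g (ι (F j i))) (ι (t i)) (hm (ι (x i)))
    rw [g.dist_eq, dist_comm (h (ι (x i))) (ι (F j i)),
      dist_comm (g (ι (F j i))) (ι (t i))] at h6
    rw [IsometryEquiv.mul_apply]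
    linarith
  have h3 : h⁻¹ * g * h ∈ N := by
    have h4 := N.mul_mem h1 h2
    rwa [mul_assoc, mul_inv_cancel_left, ← mul_assoc] at h4
  have h4 := hNn.conj_mem _ h3 h
  have e : h * (h⁻¹ * g * h) * h⁻¹ = g := by group
  rwa [e] at h4

end CZ
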